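import Pool.Agent.Helper5_SD.Lf
import Pool.Agent.Helper18_SD.Fin

/-!
# MP_589914_co: no near-optimal family has digits
-/

set_option autoImplicit false

open Finset
open scoped Pointwise

namespace Pool.Agent.Results.MP_589914_co.DigitBarrier

open Pool.Agent.SD5 Pool.Agent.SD.H18

/-- the index of a step of the chain bounds the number of classes -/
theorem idx_rel {G : Type*} [AddCommGroup G] (K L : AddSubgroup G)
    (hfin : K.relIndex L ≠ 0) : Idx L K (K.relIndex L : ℝ) := by
  classical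
  intro T h1 h2
  by_cases hT : T = ∅
  · subst hT
    simp
  obtain ⟨t0, ht0⟩ := nonempty_iff_ne_empty.2 hT
  have hf : Finite (L ⧸ K.addSubgroupOf L) := by
    apply Nat.finite_of_card_ne_zero
    exact hfin
  have : T.card ≤ Nat.card (L ⧸ K.addSubgroupOf L) := by
    have e1 : T.card = Nat.card {t : G // t ∈ T} := by simp
    rw [e1]
    refine Nat.card_le_card_of_injective
      (fun t : {t : G // t ∈ T} =>
        (QuotientAddGroup.mk (⟨(t : G) - t0, h1 _ t.2 _ ht0⟩ : L) : L ⧸ K.addSubgroupOf L)) ?_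
    rintro ⟨t, ht⟩ ⟨t', ht'⟩ he
    simp only at he
    rw [QuotientAddGroup.eq, AddSubgroup.mem_addSubgroupOf] at he
    have h3 : t' - t ∈ K := by
      have e2 : ((-(⟨t - t0, h1 _ ht _ ht0⟩ : L) + ⟨t' - t0, h1 _ ht' _ ht0⟩ : L) : G) =
          t' - t := by
        push_cast
        abel
      rwa [e2] at he
    exact Subtype.ext (h2 _ ht' _ ht h3).symm
  have e3 : K.relIndex L = Nat.card (L ⧸ K.addSubgroupOf L) := rfl
  rw [e3]
  exact_mod_cast this

theorem index_chain {G : Type*} [AddCommGroup G] (K : ℕ → AddSubgroup G) (hK : Antitone K)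
    (h0 : K 0 = ⊤) (D : ℕ) : ∏ c ∈ range D, (K (c + 1)).relIndex (K c) = (K D).index := by
  induction D with
  | zero => rw [h0]; simp
  | succ m ih =>
    rw [prod_range_succ, ih, mul_comm]
    exact AddSubgroup.relIndex_mul_index (hK (Nat.le_succ m))

/-- **Main theorem.** `R = M ^ 2 ∏ 2 h c / (h c + 1)` with the indices `h c = [K c : K (c + 1)]`. -/
theorem result (G H : Type) [AddCommGroup G] [AddCommGroup H] [Fintype H] (φ : G →+ H)
    (K : ℕ → AddSubgroup G) (D : ℕ) (hK : ∀ c, K (c + 1) ≤ K c) (h0 : K 0 = ⊤)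
    (hfin : (K D).index ≠ 0) (n M : ℕ) (A B : Fin n → Set G)
    (hA : ∀ i, (A i).Finite) (hB : ∀ i, (B i).Finite)
    (hD : ∀ i, ∀ a ∈ A i, ∀ a' ∈ A i, a - a' ∈ K D → a = a')
    (hdig : ∀ i c, c < D →
      (∀ a ∈ A i, ∀ a' ∈ A i, a - a' ∈ K c → a - a' ∈ K (c + 1)) ∨
      (∀ b ∈ B i, ∀ b' ∈ B i, b - b' ∈ K c → b - b' ∈ K (c + 1)))
    (hM : ∀ i j x, {g : G | g ∈ A i + B j ∧ φ g = x}.ncard ≤ M)
    (h1 : ∀ i, (φ '' A i + φ '' B i).ncard = (φ '' A i).ncard * (φ '' B i).ncard)
    (h2 : ∀ i j k : Fin n, i < k → Disjoint (φ '' A i + φ '' B j) (φ '' A j + φ '' B k))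
    (R : ℝ) (hR : R = (M : ℝ) ^ 2 * ∏ c ∈ range D,
      2 * ((K (c + 1)).relIndex (K c) : ℝ) / ((K (c + 1)).relIndex (K c) + 1)) :
    R ≤ (M : ℝ) ^ 2 * ((K D).index : ℝ) ^ Real.logb 2 (4 / 3) ∧
      (∑ i, ((φ '' A i).ncard : ℝ) * (φ '' B i).ncard) ^ 2 ≤
        R * (n * (Fintype.card H : ℝ) ^ 2) ∧
      ∀ θ ε : ℝ, 0 ≤ θ → 0 ≤ ε → ε * (4 + θ) < 1 - 2 * θ → 2 ≤ n →
        R ≤ (Fintype.card H : ℝ) ^ θ → (Fintype.card H : ℝ) ≤ (n : ℝ) ^ (2 + ε) →
        ∑ i, ((φ '' A i).ncard : ℝ) * (φ '' B i).ncard < (n : ℝ) ^ (3 - ε) := by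
  classical
  have hanti : Antitone K := antitone_nat_of_succ_le hK
  have hrel : ∀ c, c < D → (K (c + 1)).relIndex (K c) ≠ 0 := by
    intro c hc h3
    apply hfin
    rw [← index_chain K hanti h0 D]
    exact prod_eq_zero (mem_range.2 hc) h3
  have hprod : ∏ c ∈ range D,
      2 * ((K (c + 1)).relIndex (K c) : ℝ) / ((K (c + 1)).relIndex (K c) + 1) ≤
      ((K D).index : ℝ) ^ Real.logb 2 (4 / 3) := by
    rw [← index_chain K hanti h0 D, Nat.cast_prod,
      ← Real.finsetProd_rpow _ _ (fun c _ => Nat.cast_nonneg _)]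
    refine prod_le_prod (fun c _ => by positivity) fun c hc => ?_
    exact two_mul_div_le (Nat.one_le_iff_ne_zero.2 (hrel c (mem_range.1 hc)))
  have hR0 : 0 ≤ R := by
    rw [hR]
    exact mul_nonneg (by positivity) (prod_nonneg fun c _ => by positivity)
  have main : (∑ i, ((φ '' A i).ncard : ℝ) * (φ '' B i).ncard) ^ 2 ≤
        R * (n * (Fintype.card H : ℝ) ^ 2) := by
    by_cases hM0 : M = 0
    · have hz : ∀ i, ((φ '' A i).ncard : ℝ) * (φ '' B i).ncard = 0 := by
        intro i
        have h3 : φ '' A i + φ '' B i = ∅ := by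
          rw [← Set.image_add]
          rw [Set.image_eq_empty]
          by_contra hne
          obtain ⟨g, hg⟩ := Set.nonempty_iff_ne_empty.2 hne
          have h4 := hM i i (φ g)
          rw [hM0, Nat.le_zero, Set.ncard_eq_zero (((hA i).add (hB i)).subset fun x hx => hx.1)] at h4
          have : g ∈ {g' : G | g' ∈ A i + B i ∧ φ g' = φ g} := ⟨hg, rfl⟩
          rw [h4] at this
          exact this
        have h4 := h1 i
        rw [h3, Set.ncard_empty] at h4
        rw [← Nat.cast_mul, ← h4, Nat.cast_zero]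
      rw [sum_eq_zero fun i _ => hz i, zero_pow two_ne_zero]
      positivity
    let A' : Fin n → Finset G := fun i => (hA i).toFinset
    let B' : Fin n → Finset G := fun i => (hB i).toFinset
    let h : ℕ → ℝ := fun c => if c < D then ((K (c + 1)).relIndex (K c) : ℝ) else 1
    have hcA : ∀ i, ((A' i).image φ : Set H) = φ '' A i := by
      intro i
      simp [A']
    have hcB : ∀ i, ((B' i).image φ : Set H) = φ '' B i := by
      intro i
      simp [B']
    have hnA : ∀ i, (φ '' A i).ncard = ((A' i).image φ).card := by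
      intro i
      rw [← hcA, Set.ncard_coe_finset]
    have hnB : ∀ i, (φ '' B i).ncard = ((B' i).image φ).card := by
      intro i
      rw [← hcB, Set.ncard_coe_finset]
    have key := lift_bound (fun i => (A' i).image φ) (fun i => (B' i).image φ) (by
        intro i
        have h3 := h1 i
        rw [hnA, hnB, ← hcA, ← hcB, ← coe_add, Set.ncard_coe_finset] at h3
        exact h3) (by
        intro i j k hik
        have h3 := h2 i j k hik
        rw [← hcA, ← hcA, ← hcB, ← hcB, ← coe_add, ← coe_add, disjoint_coe] at h3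
        exact h3) φ A' B' (fun i => subset_rfl) (fun i => subset_rfl) (Nat.pos_of_ne_zero hM0) (by
        intro i j x
        have h3 := hM i j x
        have h4 : ((((A' i + B' j).filter fun g => φ g = x) : Finset G) : Set G) =
            {g : G | g ∈ A i + B j ∧ φ g = x} := by
          ext g
          simp [A', B', Set.mem_add, mem_add]
        rw [← h4, Set.ncard_coe_finset] at h3
        exact h3) K (D := D) h (by
        intro c
        by_cases hc : c < D
        · simp only [h, hc, if_true]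
          exact_mod_cast Nat.one_le_iff_ne_zero.2 (hrel c hc)
        · simp only [h, hc, if_false]
          exact le_refl _) (by
        intro c hc
        simp only [h, hc, if_true]
        exact idx_rel _ _ (hrel c hc)) h0 (by
        intro i a ha a' ha' hd
        exact hD i a ((hA i).mem_toFinset.1 ha) a' ((hA i).mem_toFinset.1 ha') hd) (by
        intro i c hc
        rcases hdig i c hc with h3 | h3
        · left
          intro a ha a' ha' hd
          exact h3 a ((hA i).mem_toFinset.1 ha) a' ((hA i).mem_toFinset.1 ha') hd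
        · right
          intro b hb b' hb' hd
          exact h3 b ((hB i).mem_toFinset.1 hb) b' ((hB i).mem_toFinset.1 hb') hd)
    have hprod2 : ∏ c ∈ range D, 2 * h c / (h c + 1) = ∏ c ∈ range D,
        2 * ((K (c + 1)).relIndex (K c) : ℝ) / ((K (c + 1)).relIndex (K c) + 1) := by
      refine prod_congr rfl fun c hc => ?_
      have hc' := mem_range.1 hc
      simp only [h, hc', if_true]
    have e1 : ∑ i, ((φ '' A i).ncard : ℝ) * (φ '' B i).ncard =
        ∑ i, (((A' i).image φ).card : ℝ) * ((B' i).image φ).card :=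
      sum_congr rfl fun i _ => by rw [hnA, hnB]
    rw [e1, hR, ← hprod2]
    exact key
  refine ⟨by rw [hR]; exact mul_le_mul_of_nonneg_left hprod (by positivity), main,
    fun θ ε hθ hε hθε hn hH hle => ?_⟩
  by_contra hcon
  push Not at hcon
  have hn1 : (1 : ℝ) < n := by exact_mod_cast hn
  have hn0 : (0 : ℝ) < n := by linarith
  have hH0 : (0 : ℝ) < Fintype.card H := by
    have : 0 < Fintype.card H := Fintype.card_pos
    exact_mod_cast this
  have e3 : ((n : ℝ) ^ (3 - ε)) ^ 2 ≤
      (∑ i, ((φ '' A i).ncard : ℝ) * (φ '' B i).ncard) ^ 2 :=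
    pow_le_pow_left₀ (by positivity) hcon 2
  have e4 : (Fintype.card H : ℝ) ^ (2 + θ) ≤ ((n : ℝ) ^ (2 + ε)) ^ (2 + θ) :=
    Real.rpow_le_rpow hH0.le hle (by linarith)
  have e5 : (n : ℝ) ^ ((3 - ε) * 2) ≤ (n : ℝ) ^ (1 + (2 + ε) * (2 + θ)) := by
    calc (n : ℝ) ^ ((3 - ε) * 2) = ((n : ℝ) ^ (3 - ε)) ^ 2 := by
          rw [Real.rpow_mul hn0.le]
          norm_num
      _ ≤ R * (n * (Fintype.card H : ℝ) ^ 2) := e3.trans main
      _ ≤ (Fintype.card H : ℝ) ^ θ * (n * (Fintype.card H : ℝ) ^ 2) :=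
          mul_le_mul_of_nonneg_right hH (by positivity)
      _ = n * (Fintype.card H : ℝ) ^ (2 + θ) := by
          rw [Real.rpow_add hH0]
          norm_num
          ring
      _ ≤ n * ((n : ℝ) ^ (2 + ε)) ^ (2 + θ) :=
          mul_le_mul_of_nonneg_left e4 hn0.le
      _ = (n : ℝ) ^ (1 + (2 + ε) * (2 + θ)) := by
          rw [← Real.rpow_mul hn0.le, Real.rpow_add hn0, Real.rpow_one]
  have e6 := (Real.rpow_le_rpow_left_iff hn1).1 e5
  nlinarith

end Pool.Agent.Results.MP_589914_co.DigitBarrier
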