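import Mathlib
import Pool.Agent.Helper5_PS.Fin

set_option autoImplicit false

open scoped Pointwise

namespace Pool.Agent.Results.MP_589914_co.PowerSaving

/-- There is a constant `c > 0` such that for every finite abelian group `H`, every `n` and all
`A_1, …, A_n, B_1, …, B_n ⊆ H` with `|A_i + B_i| = |A_i| |B_i|` for all `i`, and
`(A_i + B_j) ∩ (A_j + B_k) = ∅` for all `j` and all `i < k` (only these),
`∑_i |A_i| |B_i| ≤ |H|^(3/2 - c)`. -/
theorem result :
    ∃ c : ℝ, 0 < c ∧
      ∀ (n : ℕ) (H : Type) [AddCommGroup H] [Fintype H] (A B : Fin n → Set H),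
        (∀ i : Fin n, (A i + B i).ncard = (A i).ncard * (B i).ncard) →
        (∀ i j k : Fin n, i < k → Disjoint (A i + B j) (A j + B k)) →
        ∑ i : Fin n, ((A i).ncard : ℝ) * ((B i).ncard : ℝ) ≤
          (Fintype.card H : ℝ) ^ (3 / 2 - c) :=
  Pool.Agent.Helper5_PS.power_saving

end Pool.Agent.Results.MP_589914_co.PowerSaving
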